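import Pool.Agent.Y552.CT.Stm3

/-!
# Project CT2, job NF: products of eigenvalues of matrices over a number field
-/

set_option autoImplicit false

open Polynomial IntermediateField

namespace Pool.Agent.Y455.CT

universe u

theorem root_aux {K : Type u} [Field K] [Algebra K ℂ] (d : ℕ) (g : Matrix (Fin d) (Fin d) K)
    (α : ℂ) (hα : Module.End.HasEigenvalue (Matrix.toLin' (g.map (algebraMap K ℂ))) α) :
    IsIntegral K α ∧ (minpoly K α).natDegree ≤ d := by
  have h1 := (Module.End.hasEigenvalue_iff_isRoot_charpoly _ _).1 hα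
  rw [Matrix.charpoly_toLin', Matrix.charpoly_map] at h1
  have h2 : aeval α g.charpoly = 0 := by
    rw [aeval_def, ← eval_map]
    exact h1
  have hm : g.charpoly.Monic := Matrix.charpoly_monic g
  refine ⟨⟨g.charpoly, hm, h2⟩, ?_⟩
  have h3 := natDegree_le_of_dvd (minpoly.dvd K α h2) hm.ne_zero
  rwa [Matrix.charpoly_natDegree_eq_dim, Fintype.card_fin] at h3

theorem nf : Pool.Agent.Y552.CT.S_NF.{u} := by
  intro K _ _ σ d g h α β hα hβ
  letI : Algebra K ℂ := σ.toAlgebra
  obtain ⟨ia, da⟩ := root_aux d g α hα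
  obtain ⟨ib, db⟩ := root_aux d h β hβ
  haveI : FiniteDimensional K K⟮α⟯ := adjoin.finiteDimensional ia
  haveI : FiniteDimensional K K⟮β⟯ := adjoin.finiteDimensional ib
  set E : IntermediateField K ℂ := K⟮α⟯ ⊔ K⟮β⟯ with hE
  have h1 : Module.finrank K E ≤ d ^ 2 := by
    refine (finrank_sup_le K⟮α⟯ K⟮β⟯).trans ?_
    rw [adjoin.finrank ia, adjoin.finrank ib, pow_two]
    exact Nat.mul_le_mul da db
  haveI : FiniteDimensional K E := finiteDimensional_sup K⟮α⟯ K⟮β⟯
  haveI : FiniteDimensional ℚ E := FiniteDimensional.trans ℚ K E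
  have hmem : α * β ∈ E := by
    refine E.mul_mem ?_ ?_
    · exact (le_sup_left : K⟮α⟯ ≤ E) (mem_adjoin_simple_self K α)
    · exact (le_sup_right : K⟮β⟯ ≤ E) (mem_adjoin_simple_self K β)
  have h2 : (minpoly ℚ (⟨α * β, hmem⟩ : E)).natDegree ≤ Module.finrank ℚ K * d ^ 2 := by
    refine (minpoly.natDegree_le (A := ℚ) (B := E) _).trans ?_
    rw [← Module.finrank_mul_finrank ℚ K E]
    exact Nat.mul_le_mul_left _ h1
  have hne : minpoly ℚ (⟨α * β, hmem⟩ : E) ≠ 0 :=
    minpoly.ne_zero (Algebra.IsIntegral.isIntegral _)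
  have h3 : aeval (α * β) (minpoly ℚ (⟨α * β, hmem⟩ : E)) = 0 := by
    have h4 := minpoly.aeval ℚ (⟨α * β, hmem⟩ : E)
    have h5 := congrArg (algebraMap E ℂ) h4
    rw [map_zero, ← aeval_algebraMap_apply] at h5
    exact h5
  refine ⟨IsLocalization.integerNormalization (nonZeroDivisors ℤ)
    (minpoly ℚ (⟨α * β, hmem⟩ : E)), ?_, ?_, ?_⟩
  · rw [Ne, IsFractionRing.integerNormalization_eq_zero_iff]
    exact hne
  · refine le_trans ?_ h2
    exact natDegree_le_natDegree (degree_mono (IsLocalization.integerNormalization_support _ _))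
  · exact IsLocalization.integerNormalization_aeval_eq_zero _ _ h3

end Pool.Agent.Y455.CT
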